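import Pool.Agent.H10.BL.Stmts

/-!
# LP1: linear programme for a big squarefree part
-/

set_option autoImplicit false

namespace Pool.BL

theorem lp1_thm : S_LP1 := by
  intro x xj xk p g hx hj hk hs h1 h2 h3 hp hpx hg
  have key : ∀ A B : ℝ, (A = xj ∨ A = 3 * xj / 2 - g / 4 ∨ A = 2 * xj - 3 * g / 4) →
      (B = xk ∨ B = 3 * xk / 2 - g / 4 ∨ B = 2 * xk - 3 * g / 4) →
      (x - p) + (A + B) / 2 ≤ 3 / 5 := by
    intro A B hA hB
    rcases hA with hA | hA | hA <;> rcases hB with hB | hB | hB <;> linarith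
  have cs : ∀ y : ℝ, Phi y g = y ∨ Phi y g = 3 * y / 2 - g / 4 ∨ Phi y g = 2 * y - 3 * g / 4 := by
    intro y
    unfold Phi
    rcases max_choice y (max (3 * y / 2 - g / 4) (2 * y - 3 * g / 4)) with h | h
    · exact Or.inl h
    · rcases max_choice (3 * y / 2 - g / 4) (2 * y - 3 * g / 4) with h' | h'
      · exact Or.inr (Or.inl (h.trans h'))
      · exact Or.inr (Or.inr (h.trans h'))
  exact key _ _ (cs xj) (cs xk)

end Pool.BL
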